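import Mathlib
import Pool.Agent.V60.XB.Scaled
import Pool.Agent.H447R2.ML.Spec

set_option autoImplicit false

/-!
# The exponents of Wagstaff type to different bases avoid each other, for almost every amplitude

For an integer `b ≥ 2`, real `β > 0` and a prime `p` let `N b β p = ⌊β b ^ p / (b + 1)⌋ + 1` and let
`W b β p` be its `p`-rough part (the product, with multiplicity, of its prime factors larger than
`p`).  At `β = 1` both are `(b ^ p + 1) / (b + 1)`, for odd `p` prime to `b + 1`, for ALL bases `b`.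
The exponents of the base `b` are the primes `p` with `W b β p` prime.

We prove that for almost every `β > 0`, simultaneously for all bases `a < b`, an exponent `p` of the
base `a` and an exponent `q` of the base `b` satisfy `|q - p| ≥ m / (log m) ^ (1 + ε)`,
`m = min p q`, as soon as `m` is large; in particular two bases have only finitely many common
exponents.  More generally, let `D` be a set of pairs `(p, q)` for which the sizes of the two numbers
differ, `|p log a - q log b| ≥ c (p + q)`, with a finite sum of `(log p / p) (log q / q)`; then for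
almost every `β` only finitely many pairs in `D` consist of an exponent of `a` and one of `b`.
-/

namespace Pool.Agent.Results.MP_ce8d0c_nt.DifferentBases

open Filter Topology MeasureTheory

/-- The product, with multiplicity, of the prime factors of `m` that are larger than `p`. -/
def roughPart (p m : ℕ) : ℕ := (m.primeFactorsList.filter (fun r => p < r)).prod

/-- The integer `⌊β b ^ p / (b + 1)⌋ + 1`. -/
noncomputable def N (b : ℕ) (β : ℝ) (p : ℕ) : ℕ := ⌊β * (b : ℝ) ^ p / ((b : ℝ) + 1)⌋₊ + 1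

/-- The `p`-rough part of `⌊β b ^ p / (b + 1)⌋ + 1`. -/
noncomputable def W (b : ℕ) (β : ℝ) (p : ℕ) : ℕ := roughPart p (N b β p)

/-- The exponents of the base `b`: the primes `p` with `W b β p` prime. -/
def Exponent (b : ℕ) (β : ℝ) (p : ℕ) : Prop := p.Prime ∧ (W b β p).Prime

lemma N_special {b : ℕ} (hb : 2 ≤ b) {p : ℕ} (hodd : Odd p) :
    N b 1 p * (b + 1) = b ^ p + 1 := by
  obtain ⟨M, hM⟩ : b + 1 ∣ b ^ p + 1 := by
    have := hodd.nat_add_dvd_pow_add_pow b 1
    rwa [one_pow] at this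
  have hMr : ((M : ℝ)) * (b + 1) = (b : ℝ) ^ p + 1 := by
    have : ((b : ℝ) ^ p + 1) = (((b ^ p + 1 : ℕ)) : ℝ) := by push_cast; ring
    rw [this, hM]
    push_cast; ring
  have hb0 : (0 : ℝ) < (b : ℝ) + 1 := by positivity
  have hb2 : (2 : ℝ) ≤ b := by exact_mod_cast hb
  have hM0 : 1 ≤ M := by
    rcases Nat.eq_zero_or_pos M with h | h
    · rw [h] at hM
      simp at hM
    · exact h
  have hfl : ⌊1 * (b : ℝ) ^ p / ((b : ℝ) + 1)⌋₊ + 1 = M := by
    have h0 : ⌊1 * (b : ℝ) ^ p / ((b : ℝ) + 1)⌋₊ = M - 1 := by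
      rw [Nat.floor_eq_iff (by positivity), Nat.cast_sub hM0, Nat.cast_one]
      have e : 1 * (b : ℝ) ^ p / ((b : ℝ) + 1) = M - 1 / ((b : ℝ) + 1) := by
        field_simp
        linarith
      rw [e]
      have h1 : 1 / ((b : ℝ) + 1) < 1 := by
        rw [div_lt_one hb0]; linarith
      have h2 : 0 < 1 / ((b : ℝ) + 1) := by positivity
      constructor <;> linarith
    omega
  unfold N
  rw [hfl, hM]
  ring

lemma W_special {b : ℕ} (hb : 2 ≤ b) {p : ℕ} (hp : p.Prime) (hp2 : p ≠ 2) (hpd : ¬ p ∣ b + 1) :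
    W b 1 p = N b 1 p := by
  have hodd : Odd p := hp.odd_of_ne_two hp2
  set M := N b 1 p with hMd
  have hM : M * (b + 1) = b ^ p + 1 := N_special hb hodd
  have hMr : ((M : ℝ)) * (b + 1) = (b : ℝ) ^ p + 1 := by exact_mod_cast hM
  have hb2 : (2 : ℝ) ≤ b := by exact_mod_cast hb
  have hr := Pool.Agent.H447R2.ML.rough_quot (a := (b : ℤ)) (b := -1)
    (IsCoprime.neg_right isCoprime_one_right) (by omega) (by omega) hp
    (by
      intro h
      apply hpd
      have : ((p : ℕ) : ℤ) ∣ ((b + 1 : ℕ) : ℤ) := by push_cast; simpa using h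
      exact_mod_cast this) (x := (M : ℝ)) (by
        push_cast
        rw [hodd.neg_one_pow]
        have hne : (b : ℝ) - -1 ≠ 0 := by linarith
        field_simp
        linarith)
  rw [Nat.floor_natCast] at hr
  have hgeom : (∑ i ∈ Finset.range p, (b : ℤ) ^ i * (-1) ^ (p - 1 - i)) * ((b : ℤ) - -1) =
      (b : ℤ) ^ p - (-1) ^ p := (Commute.all (b : ℤ) (-1)).geom_sum₂_mul p
  rw [← hr, hodd.neg_one_pow] at hgeom
  have h4 : ((roughPart p M : ℕ) : ℤ) * ((b : ℤ) + 1) = (b : ℤ) ^ p + 1 := by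
    have h5 : (roughPart p M : ℤ) = (Pool.Agent.H305R2.roughPart p M : ℤ) := rfl
    rw [h5]
    linarith
  have h6 : roughPart p M * (b + 1) = M * (b + 1) := by
    rw [hM]
    exact_mod_cast h4
  exact Nat.eq_of_mul_eq_mul_right (by omega) h6

lemma floor_succ {v : ℝ} (hv : 0 ≤ v) : ⌊v + 1⌋₊ = ⌊v⌋₊ + 1 := by
  exact_mod_cast Nat.floor_add_natCast hv 1

/-- **Main theorem.** -/
theorem result :
    -- at the amplitude `1` the integers are the generalized Wagstaff numbers, for all bases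
    (∀ b : ℕ, 2 ≤ b → ∀ p : ℕ, Odd p → N b 1 p * (b + 1) = b ^ p + 1) ∧
    (∀ b : ℕ, 2 ≤ b → ∀ p : ℕ, p ≠ 2 → ¬ p ∣ b + 1 →
      (Exponent b 1 p ↔ p.Prime ∧ ((b ^ p + 1) / (b + 1)).Prime)) ∧
    -- exponents of different bases avoid each other, simultaneously for all bases
    (∀ᵐ β : ℝ, 0 < β → ∀ a b : ℕ, 2 ≤ a → a < b → ∀ ε : ℝ, 0 < ε →
      ∃ P : ℕ, ∀ p q : ℕ, P ≤ p → P ≤ q → Exponent a β p → Exponent b β q →
      ((min p q : ℕ) : ℝ) / Real.log ((min p q : ℕ) : ℝ) ^ (1 + ε) ≤ |(q : ℝ) - p|) ∧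
    -- two bases have only finitely many common exponents
    (∀ᵐ β : ℝ, 0 < β → ∀ a b : ℕ, 2 ≤ a → a < b → {p | Exponent a β p ∧ Exponent b β p}.Finite) ∧
    -- sets of pairs of exponents with separated sizes
    (∀ (a b : ℕ) (A : ℕ) (c : ℝ) (D : Set (ℕ × ℕ)), 2 ≤ a → 2 ≤ b → 0 < c →
      (∀ z ∈ D, z.2 ≤ A * z.1 ∧ z.1 ≤ A * z.2 ∧
        c * (z.1 + z.2) ≤ |(z.1 : ℝ) * Real.log a - z.2 * Real.log b|) →
      Summable (fun z : D => (Real.log z.1.1 / z.1.1) * (Real.log z.1.2 / z.1.2)) →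
      ∀ᵐ β : ℝ, 0 < β → {z | z ∈ D ∧ Exponent a β z.1 ∧ Exponent b β z.2}.Finite) := by
  have hg : ∀ p : ℕ, |(fun _ : ℕ => (1 : ℝ)) p| ≤ (1 : ℝ) * (1 : ℝ) ^ p := by simp
  have e : ∀ (b : ℕ) (β : ℝ) (m : ℕ), 0 < β →
      ⌊1 / ((b : ℝ) + 1) * β * (b : ℝ) ^ m + (fun _ : ℕ => (1 : ℝ)) m⌋₊ = N b β m := by
    intro b β m hβ
    have h1 : 1 / ((b : ℝ) + 1) * β * (b : ℝ) ^ m = β * (b : ℝ) ^ m / ((b : ℝ) + 1) := by
      field_simp
    rw [h1]
    exact floor_succ (by positivity)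
  have hmain : ∀ᵐ β : ℝ, 0 < β → ∀ a b : ℕ, 2 ≤ a → a < b → ∀ ε : ℝ, 0 < ε →
      ∃ P : ℕ, ∀ p q : ℕ, P ≤ p → P ≤ q → Exponent a β p → Exponent b β q →
      ((min p q : ℕ) : ℝ) / Real.log ((min p q : ℕ) : ℝ) ^ (1 + ε) ≤ |(q : ℝ) - p| := by
    have h : ∀ a b : ℕ, ∀ᵐ β : ℝ, 2 ≤ a → a < b → 0 < β → ∀ ε : ℝ, 0 < ε →
        ∃ P : ℕ, ∀ p q : ℕ, P ≤ p → P ≤ q → Exponent a β p → Exponent b β q →
        ((min p q : ℕ) : ℝ) / Real.log ((min p q : ℕ) : ℝ) ^ (1 + ε) ≤ |(q : ℝ) - p| := by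
      intro a b
      by_cases hc : 2 ≤ a ∧ a < b
      swap
      · exact Eventually.of_forall fun β h1 h2 => absurd ⟨h1, h2⟩ hc
      obtain ⟨ha, hab⟩ := hc
      have ha1 : (1 : ℝ) < a := by exact_mod_cast (by omega : 1 < a)
      have hb1 : (1 : ℝ) < b := by exact_mod_cast (by omega : 1 < b)
      have hab' : (a : ℝ) < b := by exact_mod_cast hab
      filter_upwards [Pool.Agent.V60.XB.xclose' ha1 hab' zero_le_one ha1 zero_le_one hb1 hg hg
        (show (0 : ℝ) < 1 / ((a : ℝ) + 1) by positivity)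
        (show (0 : ℝ) < 1 / ((b : ℝ) + 1) by positivity)] with β h _ _ hβ ε hε
      obtain ⟨P, hP⟩ := h hβ ε hε
      refine ⟨P, fun p q hp hq hep heq => hP p q hp hq hep.1 heq.1 ?_ ?_⟩
      · rw [e a β p hβ]; exact hep.2
      · rw [e b β q hβ]; exact heq.2
    filter_upwards [ae_all_iff.2 fun a => ae_all_iff.2 (h a)] with β hβ h0 a b ha hab ε hε
    exact hβ a b ha hab h0 ε hε
  refine ⟨fun b hb p hodd => N_special hb hodd, fun b hb p hp2 hpd => ?_, hmain, ?_, ?_⟩
  · unfold Exponent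
    refine and_congr_right fun hp => ?_
    rw [W_special hb hp hp2 hpd, ← N_special hb (hp.odd_of_ne_two hp2),
      Nat.mul_div_cancel _ (by omega)]
  · filter_upwards [hmain] with β h hβ a b ha hab
    obtain ⟨P, hP⟩ := h hβ a b ha hab 1 one_pos
    refine (Set.finite_Iio (P + 3)).subset fun p hp => ?_
    rw [Set.mem_Iio]
    by_contra hcon
    rw [not_lt] at hcon
    exact Pool.Agent.V60.XB.no_common (by omega) (hP p p (by omega) (by omega) hp.1 hp.2)
  · intro a b A c D ha hb hc hD hs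
    have ha1 : (1 : ℝ) < a := by exact_mod_cast (by omega : 1 < a)
    have hb1 : (1 : ℝ) < b := by exact_mod_cast (by omega : 1 < b)
    filter_upwards [Pool.Agent.V60.XB.xsets' ha1 hb1 zero_le_one ha1 zero_le_one hb1 hg hg
      (show (0 : ℝ) < 1 / ((a : ℝ) + 1) by positivity)
      (show (0 : ℝ) < 1 / ((b : ℝ) + 1) by positivity) hc D
      (fun z hz => ⟨(hD z hz).1, (hD z hz).2.1⟩) (fun z hz => (hD z hz).2.2) hs] with β h hβ
    refine (h hβ).subset ?_
    rintro z ⟨hz, h1, h2⟩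
    refine ⟨hz, ?_, ?_⟩
    · rw [e a β z.1 hβ]; exact h1.2
    · rw [e b β z.2 hβ]; exact h2.2

end Pool.Agent.Results.MP_ce8d0c_nt.DifferentBases
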