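import Mathlib
import Pool.Agent.TH888.R.Base
import Pool.Agent.H447R2.ML.Spec
import Pool.Agent.H473R4.Count

set_option autoImplicit false

/-!
# Generalized Wagstaff numbers in a fixed base: error term and sets of exponents

For an integer `b ≥ 2`, real `β > 0` and a prime `p` let `W b β p` be the `p`-rough part (the product,
with multiplicity, of the prime factors larger than `p`) of `⌊β b ^ p⌋ + 1`.  At `β = 1 / (b + 1)` this
is `(b ^ p + 1) / (b + 1)`, for odd `p` prime to `b + 1`.  For a set `S` let `M S b β n` be the number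
of primes `p ≤ n` in `S` with `W b β p` prime, and let `V S n` be the sum of `log p / p` over the
primes `p ≤ n` in `S`.  We prove that for almost every `β > 0`, simultaneously for all bases `b ≥ 2`,
the number of primes `p ≤ n` with `W b β p` prime is
`(e ^ γ / log b) log n + O((log n) ^ (1/2) (log log n) ^ (5/2))`, that for every set `S`, almost every
`β > 0` and all bases `b ≥ 2` there are infinitely many such primes `p` in `S` if and only if `V S n`
is unbounded, and that in this case `M S b β n = (e ^ γ / log b) V S n + O((V L) ^ (1/2) (log (V L)) ^ 2)`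
with `V = V S n` and `L = log log n`.
-/

namespace Pool.Agent.Results.MP_ce8d0c_nt.FixedBase

open Filter Topology MeasureTheory Asymptotics

/-- The product, with multiplicity, of the prime factors of `m` that are larger than `p`. -/
def roughPart (p m : ℕ) : ℕ := (m.primeFactorsList.filter (fun r => p < r)).prod

/-- The `p`-rough part of `⌊β b ^ p⌋ + 1`. -/
noncomputable def W (b : ℕ) (β : ℝ) (p : ℕ) : ℕ := roughPart p (⌊β * (b : ℝ) ^ p⌋₊ + 1)

open Classical in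
/-- The number of primes `p ≤ n` in the set `S` for which `W b β p` is prime. -/
noncomputable def M (S : Set ℕ) (b : ℕ) (β : ℝ) (n : ℕ) : ℕ :=
  ((Finset.range (n + 1)).filter (fun p => p.Prime ∧ p ∈ S ∧ (W b β p).Prime)).card

open Classical in
/-- The sum of `log p / p` over the primes `p ≤ n` in the set `S`. -/
noncomputable def V (S : Set ℕ) (n : ℕ) : ℝ :=
  ∑ p ∈ (Finset.range (n + 1)).filter (fun p => p.Prime ∧ p ∈ S), Real.log p / p

lemma V_eq (S : Set ℕ) (n : ℕ) : V S n = Pool.Agent.TH888.R.VS S n := by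
  classical
  unfold V Pool.Agent.TH888.R.VS
  rw [Finset.sum_filter]
  refine Finset.sum_congr rfl fun p _ => ?_
  by_cases h : p.Prime ∧ p ∈ S
  · rw [if_pos h, if_pos ⟨h.2, h.1⟩]
    rfl
  · rw [if_neg h, if_neg fun h1 => h ⟨h1.2, h1.1⟩]

/-- The special points. -/
lemma special {b : ℕ} (hb : 2 ≤ b) {p : ℕ} (hp : p.Prime) (hp2 : p ≠ 2) (hpd : ¬ p ∣ b + 1) :
    W b (1 / ((b : ℝ) + 1)) p * (b + 1) = b ^ p + 1 := by
  have hodd : Odd p := hp.odd_of_ne_two hp2
  obtain ⟨M, hM⟩ : b + 1 ∣ b ^ p + 1 := by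
    have := hodd.nat_add_dvd_pow_add_pow b 1
    rwa [one_pow] at this
  have hMr : ((M : ℝ)) * (b + 1) = (b : ℝ) ^ p + 1 := by
    have : ((b : ℝ) ^ p + 1) = (((b ^ p + 1 : ℕ)) : ℝ) := by push_cast; ring
    rw [this, hM]
    push_cast; ring
  have hb0 : (0 : ℝ) < (b : ℝ) + 1 := by positivity
  have hb2 : (2 : ℝ) ≤ b := by exact_mod_cast hb
  have hM0 : 1 ≤ M := by
    rcases Nat.eq_zero_or_pos M with h | h
    · rw [h] at hM
      simp at hM
    · exact h
  have hfl : ⌊1 / ((b : ℝ) + 1) * (b : ℝ) ^ p⌋₊ + 1 = M := by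
    have h0 : ⌊1 / ((b : ℝ) + 1) * (b : ℝ) ^ p⌋₊ = M - 1 := by
      rw [Nat.floor_eq_iff (by positivity), Nat.cast_sub hM0, Nat.cast_one]
      have e : 1 / ((b : ℝ) + 1) * (b : ℝ) ^ p = M - 1 / ((b : ℝ) + 1) := by
        field_simp
        linarith
      rw [e]
      have h1 : 1 / ((b : ℝ) + 1) < 1 := by
        rw [div_lt_one hb0]; linarith
      have h2 : 0 < 1 / ((b : ℝ) + 1) := by positivity
      constructor <;> linarith
    omega
  have hr := Pool.Agent.H447R2.ML.rough_quot (a := (b : ℤ)) (b := -1)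
    (IsCoprime.neg_right isCoprime_one_right) (by omega) (by omega) hp
    (by
      intro h
      apply hpd
      have : ((p : ℕ) : ℤ) ∣ ((b + 1 : ℕ) : ℤ) := by push_cast; simpa using h
      exact_mod_cast this) (x := (M : ℝ)) (by
        push_cast
        rw [hodd.neg_one_pow]
        have hne : (b : ℝ) - -1 ≠ 0 := by linarith
        field_simp
        linarith)
  rw [Nat.floor_natCast] at hr
  have hgeom : (∑ i ∈ Finset.range p, (b : ℤ) ^ i * (-1) ^ (p - 1 - i)) * ((b : ℤ) - -1) =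
      (b : ℤ) ^ p - (-1) ^ p := (Commute.all (b : ℤ) (-1)).geom_sum₂_mul p
  rw [← hr, hodd.neg_one_pow] at hgeom
  unfold W
  rw [hfl]
  have h4 : ((roughPart p M : ℕ) : ℤ) * ((b : ℤ) + 1) = (b : ℤ) ^ p + 1 := by
    have h5 : (roughPart p M : ℤ) = (Pool.Agent.H305R2.roughPart p M : ℤ) := rfl
    rw [h5]
    linarith
  exact_mod_cast h4

lemma floor_succ {v : ℝ} (hv : 0 ≤ v) : ⌊v + 1⌋₊ = ⌊v⌋₊ + 1 := by
  exact_mod_cast Nat.floor_add_natCast hv 1

lemma M_eq (S : Set ℕ) (b : ℕ) {β : ℝ} (hβ : 0 < β) (n : ℕ) :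
    M S b β n = Pool.Agent.TH888.R.cS S (fun p => ⌊β * (b : ℝ) ^ p + (fun _ : ℕ => (1 : ℝ)) p⌋₊) n := by
  classical
  have e : ∀ p : ℕ, ⌊β * (b : ℝ) ^ p + 1⌋₊ = ⌊β * (b : ℝ) ^ p⌋₊ + 1 := fun p =>
    floor_succ (by positivity)
  unfold M Pool.Agent.TH888.R.cS W
  simp only [e]
  rfl

lemma pt (S : Set ℕ) : ∀ᵐ β : ℝ, 0 < β → ∀ b : ℕ, 2 ≤ b → Pool.Agent.TH888.R.Pt
    (fun p => ⌊β * (b : ℝ) ^ p + (fun _ : ℕ => (1 : ℝ)) p⌋₊)
    (Real.exp Real.eulerMascheroniConstant / Real.log b) S := by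
  have h : ∀ b : ℕ, ∀ᵐ β : ℝ, 2 ≤ b → 0 < β → Pool.Agent.TH888.R.Pt
      (fun p => ⌊β * (b : ℝ) ^ p + (fun _ : ℕ => (1 : ℝ)) p⌋₊)
      (Real.exp Real.eulerMascheroniConstant / Real.log b) S := by
    intro b
    by_cases hb : 2 ≤ b
    swap
    · exact Eventually.of_forall fun β h => absurd h hb
    have hg : ∀ p : ℕ, |(fun _ : ℕ => (1 : ℝ)) p| ≤ (1 : ℝ) * (1 : ℝ) ^ p := by simp
    have hb1 : (1 : ℝ) < b := by exact_mod_cast (by omega : 1 < b)
    filter_upwards [Pool.Agent.TH888.R.pt_floor (α := (b : ℝ)) (κ := 1) (C := 1) (g := fun _ => 1)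
      hb1 (by norm_num) hb1 hg (Pool.Agent.TH888.R.near_base hb (by norm_num) hb1 hg) S]
      with β hβ _ h0
    exact hβ h0
  filter_upwards [ae_all_iff.2 h] with β hβ h0 b hb
  exact hβ b hb h0

lemma index {b : ℕ} (hb : 2 ≤ b) : {n : ℕ | Odd n ∧ ((b ^ n + 1) / (b + 1)).Prime}.Infinite ↔
    {p : ℕ | p.Prime ∧ (W b (1 / ((b : ℝ) + 1)) p).Prime}.Infinite := by
  have e : {n : ℕ | Odd n ∧ ((b ^ n + 1) / (b + 1)).Prime} =
      {p : ℕ | p.Prime ∧ (p ≠ 2 ∧ ((b ^ p + 1) / (b + 1)).Prime)} := by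
    ext n
    constructor
    · rintro ⟨h1, h2⟩
      refine ⟨Pool.Agent.H473R4.wagstaff_prime_index hb h1 h2, ?_, h2⟩
      rintro rfl
      exact absurd h1 (by decide)
    · rintro ⟨h1, h2, h3⟩
      exact ⟨h1.odd_of_ne_two h2, h3⟩
  have key : ∀ p : ℕ, b + 2 ≤ p → p.Prime →
      (((b ^ p + 1) / (b + 1)).Prime ↔ (W b (1 / ((b : ℝ) + 1)) p).Prime) := by
    intro p hpb hp
    have hp2 : p ≠ 2 := by omega
    have hpd : ¬ p ∣ b + 1 := fun h => by
      have := Nat.le_of_dvd (by omega) h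
      omega
    rw [← special hb hp hp2 hpd, Nat.mul_div_cancel _ (by omega)]
  rw [e]
  constructor
  · intro hi hf
    refine hi ((hf.union (Set.finite_Iio (b + 2))).subset ?_)
    rintro p ⟨h1, _, h3⟩
    rcases lt_or_ge p (b + 2) with h4 | h4
    · exact Or.inr h4
    · exact Or.inl ⟨h1, (key p h4 h1).1 h3⟩
  · intro hi hf
    refine hi ((hf.union (Set.finite_Iio (b + 2))).subset ?_)
    rintro p ⟨h1, h3⟩
    rcases lt_or_ge p (b + 2) with h4 | h4
    · exact Or.inr h4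
    · exact Or.inl ⟨h1, by omega, (key p h4 h1).2 h3⟩

/-- **Main theorem.** -/
theorem result :
    -- the generalized Wagstaff numbers are the values at the amplitude `1 / (b + 1)`
    (∀ b : ℕ, 2 ≤ b → ∀ p : ℕ, p.Prime → p ≠ 2 → ¬ p ∣ b + 1 →
      W b (1 / ((b : ℝ) + 1)) p * (b + 1) = b ^ p + 1) ∧
    (∀ b : ℕ, 2 ≤ b → ({n : ℕ | Odd n ∧ ((b ^ n + 1) / (b + 1)).Prime}.Infinite ↔
      {p : ℕ | p.Prime ∧ (W b (1 / ((b : ℝ) + 1)) p).Prime}.Infinite)) ∧
    -- the law with error term, for almost every amplitude, simultaneously for all bases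
    (∀ᵐ β : ℝ, 0 < β → ∀ b : ℕ, 2 ≤ b →
      (fun n : ℕ => (M Set.univ b β n : ℝ) -
        Real.exp Real.eulerMascheroniConstant / Real.log b * Real.log n) =O[atTop]
      (fun n : ℕ => Real.sqrt (Real.log n) * (Real.log (Real.log n)) ^ ((5 : ℝ) / 2))) ∧
    -- sets of exponents
    (∀ S : Set ℕ, Tendsto (V S) atTop atTop → ∀ᵐ β : ℝ, 0 < β → ∀ b : ℕ, 2 ≤ b →
      (fun n : ℕ => (M S b β n : ℝ) -
        Real.exp Real.eulerMascheroniConstant / Real.log b * V S n) =O[atTop]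
      (fun n : ℕ => Real.sqrt (V S n * Real.log (Real.log n)) *
        (Real.log (V S n * Real.log (Real.log n))) ^ 2)) ∧
    (∀ S : Set ℕ, ∀ᵐ β : ℝ, 0 < β → ∀ b : ℕ, 2 ≤ b →
      ({p : ℕ | p.Prime ∧ p ∈ S ∧ (W b β p).Prime}.Infinite ↔ Tendsto (V S) atTop atTop)) := by
  have hV : ∀ S, V S = Pool.Agent.TH888.R.VS S := fun S => funext fun n => V_eq S n
  refine ⟨fun b hb p hp hp2 hpd => special hb hp hp2 hpd, fun b hb => index hb, ?_,
    fun S hS => ?_, fun S => ?_⟩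
  · filter_upwards [pt Set.univ] with β hβ h0 b hb
    obtain ⟨B, hB, h⟩ := (hβ h0 b hb).law Pool.Agent.TH888.R.VS_univ_tendsto
    simp only [M_eq _ _ h0]
    exact Pool.Agent.TH888.R.bigO_all hB h
  · rw [hV] at hS ⊢
    filter_upwards [pt S] with β hβ h0 b hb
    obtain ⟨B, hB, h⟩ := (hβ h0 b hb).law hS
    simp only [M_eq _ _ h0]
    exact Pool.Agent.TH888.R.bigO_set hB hS h
  · rw [hV]
    filter_upwards [pt S] with β hβ h0 b hb
    have hset : {p : ℕ | p.Prime ∧ p ∈ S ∧ (W b β p).Prime} =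
        {p : ℕ | p.Prime ∧ p ∈ S ∧ (Pool.Agent.H305R2.roughPart p
          (⌊β * (b : ℝ) ^ p + (fun _ : ℕ => (1 : ℝ)) p⌋₊)).Prime} := by
      have e : ∀ p : ℕ, ⌊β * (b : ℝ) ^ p + 1⌋₊ = ⌊β * (b : ℝ) ^ p⌋₊ + 1 := fun p =>
        floor_succ (by positivity)
      simp only [e]
      rfl
    rw [hset]
    constructor
    · intro hi
      by_contra hn
      exact hi ((hβ h0 b hb).fin hn)
    · exact (hβ h0 b hb).inf

end Pool.Agent.Results.MP_ce8d0c_nt.FixedBase
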