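import Mathlib
import Pool.Agent.V1213.TA.Row
import Pool.Agent.W66.LU
import Pool.Agent.H473R4.Count

set_option autoImplicit false

/-!
# Generalized Wagstaff numbers and random base `b` digits read from the right

For an integer `b ≥ 2` and a sequence `d` of base `b` digits let `N b d p` be the integer
`d 0 + b d 1 + … + b ^ (p - 1) d (p - 1)`, that is the residue modulo `b ^ p` of the `b`-adic integer
with the digits `d i`.  For the digits `1, b - 1, 0, b - 1, 0, b - 1, …` of the `b`-adic integer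
`1 / (b + 1)` and odd `p` this is the generalized Wagstaff number `(b ^ p + 1) / (b + 1)`.  Let
`W b d p` be the `p`-rough part (the product, with multiplicity, of the prime factors larger than `p`)
of `N b d p`.  For a set `S` let `M S b d n` be the number of primes `p ≤ n` in `S` with `W b d p`
prime, and let `V S n` be the sum of `log p / p` over the primes `p ≤ n` in `S`.

We prove that for every `b ≥ 2` and almost every sequence `d` (independent uniform digits) with `d 0`
prime to `b` the number of primes `p ≤ n` with `W b d p` prime is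
`(e ^ γ / log b) log n + O((log n) ^ (1/2) (log log n) ^ (5/2))`, that for every set `S` and almost
every such `d` there are infinitely many such primes `p` in `S` if and only if `V S n` is unbounded,
and that in this case `M S b d n = (e ^ γ / log b) V S n + O((V L) ^ (1/2) (log (V L)) ^ 2)` with
`V = V S n` and `L = log log n`.
-/

namespace Pool.Agent.Results.MP_ce8d0c_nt.LastDigits

open Filter Topology MeasureTheory Asymptotics

/-- The integer with the base `b` digits `d (p - 1) … d 1 d 0`. -/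
def N (b : ℕ) (d : ℕ → Fin b) (p : ℕ) : ℕ := ∑ i ∈ Finset.range p, (d i : ℕ) * b ^ i

/-- The product, with multiplicity, of the prime factors of `m` that are larger than `p`. -/
def roughPart (p m : ℕ) : ℕ := (m.primeFactorsList.filter (fun r => p < r)).prod

/-- The `p`-rough part of the integer with the base `b` digits `d (p - 1) … d 1 d 0`. -/
def W (b : ℕ) (d : ℕ → Fin b) (p : ℕ) : ℕ := roughPart p (N b d p)

/-- The digits `1, b - 1, 0, b - 1, 0, b - 1, …` of the `b`-adic integer `1 / (b + 1)`. -/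
def wag (b : ℕ) (hb : 2 ≤ b) (i : ℕ) : Fin b :=
  if i = 0 then ⟨1, by omega⟩ else if i % 2 = 1 then ⟨b - 1, by omega⟩ else ⟨0, by omega⟩

/-- Independent uniform base `b` digits. -/
noncomputable def digits (b : ℕ) : Measure (ℕ → Fin b) :=
  Measure.infinitePi (fun _ : ℕ => ProbabilityTheory.uniformOn (Set.univ : Set (Fin b)))

open Classical in
/-- The number of primes `p ≤ n` in the set `S` for which `W b d p` is prime. -/
noncomputable def M (S : Set ℕ) (b : ℕ) (d : ℕ → Fin b) (n : ℕ) : ℕ :=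
  ((Finset.range (n + 1)).filter (fun p => p.Prime ∧ p ∈ S ∧ (W b d p).Prime)).card

open Classical in
/-- The sum of `log p / p` over the primes `p ≤ n` in the set `S`. -/
noncomputable def V (S : Set ℕ) (n : ℕ) : ℝ :=
  ∑ p ∈ (Finset.range (n + 1)).filter (fun p => p.Prime ∧ p ∈ S), Real.log p / p

lemma V_eq (S : Set ℕ) (n : ℕ) : V S n = Pool.Agent.TH888.R.VS S n := by
  classical
  unfold V Pool.Agent.TH888.R.VS
  rw [Finset.sum_filter]
  refine Finset.sum_congr rfl fun p _ => ?_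
  by_cases h : p.Prime ∧ p ∈ S
  · rw [if_pos h, if_pos ⟨h.2, h.1⟩]
    rfl
  · rw [if_neg h, if_neg fun h1 => h ⟨h1.2, h1.1⟩]

lemma M_eq (S : Set ℕ) (b : ℕ) (d : ℕ → Fin b) (n : ℕ) :
    M S b d n = Pool.Agent.TH888.R.cS S (fun p => Pool.Agent.W66L.dsum b p d) n := rfl

lemma N_succ (b : ℕ) (d : ℕ → Fin b) (p : ℕ) : N b d (p + 1) = N b d p + (d p : ℕ) * b ^ p := by
  unfold N
  rw [Finset.sum_range_succ]

lemma N_wag_aux (b : ℕ) (hb : 2 ≤ b) (k : ℕ) :
    N b (wag b hb) (2 * k + 1) * (b + 1) = b ^ (2 * k + 1) + 1 := by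
  induction k with
  | zero =>
    unfold N wag
    simp
  | succ k ih =>
    have e : 2 * (k + 1) + 1 = (2 * k + 1 + 1) + 1 := by ring
    have w1 : ((wag b hb (2 * k + 1) : Fin b) : ℕ) = b - 1 := by
      unfold wag
      rw [if_neg (by omega), if_pos (by omega)]
    have w2 : ((wag b hb (2 * k + 1 + 1) : Fin b) : ℕ) = 0 := by
      unfold wag
      rw [if_neg (by omega), if_neg (by omega)]
    rw [e, N_succ, N_succ, w1, w2, zero_mul, add_zero, add_mul, ih]
    obtain ⟨c, rfl⟩ : ∃ c, b = c + 1 := ⟨b - 1, by omega⟩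
    rw [Nat.add_sub_cancel]
    ring

lemma N_wag {b : ℕ} (hb : 2 ≤ b) {p : ℕ} (hodd : Odd p) :
    N b (wag b hb) p * (b + 1) = b ^ p + 1 := by
  obtain ⟨k, rfl⟩ := hodd
  exact N_wag_aux b hb k

lemma N_wag' {b : ℕ} (hb : 2 ≤ b) {p : ℕ} (hodd : Odd p) :
    N b (wag b hb) p = (b ^ p + 1) / (b + 1) := by
  rw [← N_wag hb hodd, Nat.mul_div_cancel _ (by omega)]

lemma W_wag {b : ℕ} (hb : 2 ≤ b) {p : ℕ} (hp : p.Prime) (hp2 : p ≠ 2) (hpd : ¬ p ∣ b + 1) :
    W b (wag b hb) p = (b ^ p + 1) / (b + 1) := by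
  have hodd : Odd p := hp.odd_of_ne_two hp2
  rw [← N_wag' hb hodd]
  exact Pool.Agent.W66L.rough_wagstaff hb hp hp2 hpd (N_wag hb hodd)

lemma pt (b : ℕ) (hb : 2 ≤ b) (S : Set ℕ) : ∀ᵐ d ∂(digits b), (d 0 : ℕ).Coprime b →
    Pool.Agent.TH888.R.Pt (fun p => Pool.Agent.W66L.dsum b p d)
      (Real.exp Real.eulerMascheroniConstant / Real.log b) S := by
  have : NeZero b := ⟨by omega⟩
  have h := Pool.Agent.V1213.TA.pt_full hb (Pool.Agent.W66L.full_digits b) S
  filter_upwards [h] with d hd h0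
  have h1 : (Pool.Agent.W66L.dsum b 1 d).Coprime b := by
    unfold Pool.Agent.W66L.dsum
    simpa using h0
  exact hd h1

lemma index {b : ℕ} (hb : 2 ≤ b) : {n : ℕ | Odd n ∧ ((b ^ n + 1) / (b + 1)).Prime}.Infinite ↔
    {p : ℕ | p.Prime ∧ (W b (wag b hb) p).Prime}.Infinite := by
  have e : {n : ℕ | Odd n ∧ ((b ^ n + 1) / (b + 1)).Prime} =
      {p : ℕ | p.Prime ∧ (p ≠ 2 ∧ ((b ^ p + 1) / (b + 1)).Prime)} := by
    ext n
    constructor
    · rintro ⟨h1, h2⟩
      refine ⟨Pool.Agent.H473R4.wagstaff_prime_index hb h1 h2, ?_, h2⟩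
      rintro rfl
      exact absurd h1 (by decide)
    · rintro ⟨h1, h2, h3⟩
      exact ⟨h1.odd_of_ne_two h2, h3⟩
  have key : ∀ p : ℕ, b + 2 ≤ p → p.Prime →
      (((b ^ p + 1) / (b + 1)).Prime ↔ (W b (wag b hb) p).Prime) := by
    intro p hpb hp
    have hp2 : p ≠ 2 := by omega
    have hpd : ¬ p ∣ b + 1 := fun h => by
      have := Nat.le_of_dvd (by omega) h
      omega
    rw [W_wag hb hp hp2 hpd]
  rw [e]
  constructor
  · intro hi hf
    refine hi ((hf.union (Set.finite_Iio (b + 2))).subset ?_)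
    rintro p ⟨h1, _, h3⟩
    rcases lt_or_ge p (b + 2) with h4 | h4
    · exact Or.inr h4
    · exact Or.inl ⟨h1, (key p h4 h1).1 h3⟩
  · intro hi hf
    refine hi ((hf.union (Set.finite_Iio (b + 2))).subset ?_)
    rintro p ⟨h1, h3⟩
    rcases lt_or_ge p (b + 2) with h4 | h4
    · exact Or.inr h4
    · exact Or.inl ⟨h1, by omega, (key p h4 h1).2 h3⟩

/-- **Main theorem.** -/
theorem result :
    -- the digits of `1 / (b + 1)` give the generalized Wagstaff numbers
    (∀ (b : ℕ) (hb : 2 ≤ b) (p : ℕ), Odd p → N b (wag b hb) p = (b ^ p + 1) / (b + 1)) ∧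
    (∀ (b : ℕ) (hb : 2 ≤ b) (p : ℕ), p.Prime → p ≠ 2 → ¬ p ∣ b + 1 →
      W b (wag b hb) p = (b ^ p + 1) / (b + 1)) ∧
    (∀ (b : ℕ) (hb : 2 ≤ b), ({n : ℕ | Odd n ∧ ((b ^ n + 1) / (b + 1)).Prime}.Infinite ↔
      {p : ℕ | p.Prime ∧ (W b (wag b hb) p).Prime}.Infinite)) ∧
    -- the law with error term, for almost all sequences of digits
    (∀ b : ℕ, 2 ≤ b → ∀ᵐ d ∂(digits b), (d 0 : ℕ).Coprime b →
      (fun n : ℕ => (M Set.univ b d n : ℝ) -
        Real.exp Real.eulerMascheroniConstant / Real.log b * Real.log n) =O[atTop]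
      (fun n : ℕ => Real.sqrt (Real.log n) * (Real.log (Real.log n)) ^ ((5 : ℝ) / 2))) ∧
    -- sets of exponents
    (∀ b : ℕ, 2 ≤ b → ∀ S : Set ℕ, Tendsto (V S) atTop atTop →
      ∀ᵐ d ∂(digits b), (d 0 : ℕ).Coprime b →
      (fun n : ℕ => (M S b d n : ℝ) -
        Real.exp Real.eulerMascheroniConstant / Real.log b * V S n) =O[atTop]
      (fun n : ℕ => Real.sqrt (V S n * Real.log (Real.log n)) *
        (Real.log (V S n * Real.log (Real.log n))) ^ 2)) ∧
    (∀ b : ℕ, 2 ≤ b → ∀ S : Set ℕ, ∀ᵐ d ∂(digits b), (d 0 : ℕ).Coprime b →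
      ({p : ℕ | p.Prime ∧ p ∈ S ∧ (W b d p).Prime}.Infinite ↔ Tendsto (V S) atTop atTop)) := by
  have hV : ∀ S, V S = Pool.Agent.TH888.R.VS S := fun S => funext fun n => V_eq S n
  refine ⟨fun b hb p hodd => N_wag' hb hodd, fun b hb p hp hp2 hpd => W_wag hb hp hp2 hpd,
    fun b hb => index hb, fun b hb => ?_, fun b hb S hS => ?_, fun b hb S => ?_⟩
  · filter_upwards [pt b hb Set.univ] with d hd h0
    obtain ⟨B, hB, h⟩ := (hd h0).law Pool.Agent.TH888.R.VS_univ_tendsto
    simp only [M_eq]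
    exact Pool.Agent.TH888.R.bigO_all hB h
  · rw [hV] at hS ⊢
    filter_upwards [pt b hb S] with d hd h0
    obtain ⟨B, hB, h⟩ := (hd h0).law hS
    simp only [M_eq]
    exact Pool.Agent.TH888.R.bigO_set hB hS h
  · rw [hV]
    filter_upwards [pt b hb S] with d hd h0
    constructor
    · intro hi
      by_contra hn
      exact hi ((hd h0).fin hn)
    · exact (hd h0).inf

end Pool.Agent.Results.MP_ce8d0c_nt.LastDigits
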