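import Mathlib
import Pool.Agent.V60.Gap.Floor
import Pool.Agent.H447R2.ML.Spec

set_option autoImplicit false

/-!
# The exponents of Wagstaff type have no small multiplicative gaps, for almost every amplitude

For an integer `b ≥ 2`, real `β > 0` and a prime `p` let `N b β p = ⌊β b ^ p⌋ + 1` and let `W b β p` be
its `p`-rough part (the product, with multiplicity, of its prime factors larger than `p`).  At
`β = 1 / (b + 1)` both are `(b ^ p + 1) / (b + 1)`, for odd `p` prime to `b + 1`.  The exponents are the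
primes `p` with `W b β p` prime.

We prove that for almost every `β > 0`, simultaneously for all bases `b ≥ 2`, two exponents `p < q`
with `q < p + p / (log p) ^ (1 + ε)` satisfy, for all large `p`, `N q = b ^ (q - p) * N p`, `W q = W p`
and `b ^ (q - p) ≤ (log p) ^ (1 + ε)`; at the special amplitude the first equation never holds.  More
generally this holds, apart from finitely many pairs, for the pairs `(p, q)` in any set `D` with a
finite sum of `(log p / p) ^ 2`.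
-/

namespace Pool.Agent.Results.MP_ce8d0c_nt.SmallGaps

open Filter Topology MeasureTheory

/-- The product, with multiplicity, of the prime factors of `m` that are larger than `p`. -/
def roughPart (p m : ℕ) : ℕ := (m.primeFactorsList.filter (fun r => p < r)).prod

/-- The integer `⌊β b ^ p⌋ + 1`. -/
noncomputable def N (b : ℕ) (β : ℝ) (p : ℕ) : ℕ := ⌊β * (b : ℝ) ^ p⌋₊ + 1

/-- The `p`-rough part of `⌊β b ^ p⌋ + 1`. -/
noncomputable def W (b : ℕ) (β : ℝ) (p : ℕ) : ℕ := roughPart p (N b β p)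

/-- The exponents: the primes `p` with `W b β p` prime. -/
def Exponent (b : ℕ) (β : ℝ) (p : ℕ) : Prop := p.Prime ∧ (W b β p).Prime

lemma N_special {b : ℕ} (hb : 2 ≤ b) {p : ℕ} (hodd : Odd p) :
    N b (1 / ((b : ℝ) + 1)) p * (b + 1) = b ^ p + 1 := by
  obtain ⟨M, hM⟩ : b + 1 ∣ b ^ p + 1 := by
    have := hodd.nat_add_dvd_pow_add_pow b 1
    rwa [one_pow] at this
  have hMr : ((M : ℝ)) * (b + 1) = (b : ℝ) ^ p + 1 := by
    have : ((b : ℝ) ^ p + 1) = (((b ^ p + 1 : ℕ)) : ℝ) := by push_cast; ring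
    rw [this, hM]
    push_cast; ring
  have hb0 : (0 : ℝ) < (b : ℝ) + 1 := by positivity
  have hb2 : (2 : ℝ) ≤ b := by exact_mod_cast hb
  have hM0 : 1 ≤ M := by
    rcases Nat.eq_zero_or_pos M with h | h
    · rw [h] at hM
      simp at hM
    · exact h
  have hfl : ⌊1 / ((b : ℝ) + 1) * (b : ℝ) ^ p⌋₊ + 1 = M := by
    have h0 : ⌊1 / ((b : ℝ) + 1) * (b : ℝ) ^ p⌋₊ = M - 1 := by
      rw [Nat.floor_eq_iff (by positivity), Nat.cast_sub hM0, Nat.cast_one]
      have e : 1 / ((b : ℝ) + 1) * (b : ℝ) ^ p = M - 1 / ((b : ℝ) + 1) := by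
        field_simp
        linarith
      rw [e]
      have h1 : 1 / ((b : ℝ) + 1) < 1 := by
        rw [div_lt_one hb0]; linarith
      have h2 : 0 < 1 / ((b : ℝ) + 1) := by positivity
      constructor <;> linarith
    omega
  unfold N
  rw [hfl, hM]
  ring

lemma W_special {b : ℕ} (hb : 2 ≤ b) {p : ℕ} (hp : p.Prime) (hp2 : p ≠ 2) (hpd : ¬ p ∣ b + 1) :
    W b (1 / ((b : ℝ) + 1)) p = N b (1 / ((b : ℝ) + 1)) p := by
  have hodd : Odd p := hp.odd_of_ne_two hp2
  set M := N b (1 / ((b : ℝ) + 1)) p with hMd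
  have hM : M * (b + 1) = b ^ p + 1 := N_special hb hodd
  have hMr : ((M : ℝ)) * (b + 1) = (b : ℝ) ^ p + 1 := by exact_mod_cast hM
  have hb2 : (2 : ℝ) ≤ b := by exact_mod_cast hb
  have hr := Pool.Agent.H447R2.ML.rough_quot (a := (b : ℤ)) (b := -1)
    (IsCoprime.neg_right isCoprime_one_right) (by omega) (by omega) hp
    (by
      intro h
      apply hpd
      have : ((p : ℕ) : ℤ) ∣ ((b + 1 : ℕ) : ℤ) := by push_cast; simpa using h
      exact_mod_cast this) (x := (M : ℝ)) (by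
        push_cast
        rw [hodd.neg_one_pow]
        have hne : (b : ℝ) - -1 ≠ 0 := by linarith
        field_simp
        linarith)
  rw [Nat.floor_natCast] at hr
  have hgeom : (∑ i ∈ Finset.range p, (b : ℤ) ^ i * (-1) ^ (p - 1 - i)) * ((b : ℤ) - -1) =
      (b : ℤ) ^ p - (-1) ^ p := (Commute.all (b : ℤ) (-1)).geom_sum₂_mul p
  rw [← hr, hodd.neg_one_pow] at hgeom
  have h4 : ((roughPart p M : ℕ) : ℤ) * ((b : ℤ) + 1) = (b : ℤ) ^ p + 1 := by
    have h5 : (roughPart p M : ℤ) = (Pool.Agent.H305R2.roughPart p M : ℤ) := rfl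
    rw [h5]
    linarith
  have h6 : roughPart p M * (b + 1) = M * (b + 1) := by
    rw [hM]
    exact_mod_cast h4
  exact Nat.eq_of_mul_eq_mul_right (by omega) h6

lemma floor_succ {v : ℝ} (hv : 0 ≤ v) : ⌊v + 1⌋₊ = ⌊v⌋₊ + 1 := by
  exact_mod_cast Nat.floor_add_natCast hv 1

/-- **Main theorem.** -/
theorem result :
    -- at the amplitude `1 / (b + 1)` the integers are the generalized Wagstaff numbers
    (∀ b : ℕ, 2 ≤ b → ∀ p : ℕ, Odd p → N b (1 / ((b : ℝ) + 1)) p * (b + 1) = b ^ p + 1) ∧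
    (∀ b : ℕ, 2 ≤ b → ∀ p : ℕ, p ≠ 2 → ¬ p ∣ b + 1 →
      (Exponent b (1 / ((b : ℝ) + 1)) p ↔ p.Prime ∧ ((b ^ p + 1) / (b + 1)).Prime)) ∧
    (∀ b : ℕ, 2 ≤ b → ∀ p q : ℕ, Odd p → Odd q → p < q →
      N b (1 / ((b : ℝ) + 1)) q ≠ b ^ (q - p) * N b (1 / ((b : ℝ) + 1)) p) ∧
    -- close exponents, simultaneously for all bases
    (∀ᵐ β : ℝ, 0 < β → ∀ b : ℕ, 2 ≤ b → ∀ ε : ℝ, 0 < ε →
      ∃ P : ℕ, ∀ p q : ℕ, P ≤ p → p < q → Exponent b β p → Exponent b β q →
      (p : ℝ) / Real.log p ^ (1 + ε) ≤ q - p ∨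
        (N b β q = b ^ (q - p) * N b β p ∧ W b β q = W b β p ∧
          (b : ℝ) ^ (q - p) ≤ Real.log p ^ (1 + ε))) ∧
    -- sets of pairs of exponents
    (∀ D : Set (ℕ × ℕ), (∀ z ∈ D, z.1 < z.2 ∧ z.2 ≤ 2 * z.1) →
      Summable (fun z : D => (Real.log z.1.1 / z.1.1) ^ 2) →
      ∀ᵐ β : ℝ, 0 < β → ∀ b : ℕ, 2 ≤ b →
        {z | z ∈ D ∧ Exponent b β z.1 ∧ Exponent b β z.2 ∧ W b β z.1 ≠ W b β z.2}.Finite) := by
  have hg : ∀ p : ℕ, |(fun _ : ℕ => (1 : ℝ)) p| ≤ (1 : ℝ) * (1 : ℝ) ^ p := by simp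
  refine ⟨fun b hb p hodd => N_special hb hodd, fun b hb p hp2 hpd => ?_,
    fun b hb p q hp hq hpq h => ?_, ?_, fun D hD hs => ?_⟩
  · unfold Exponent
    refine and_congr_right fun hp => ?_
    rw [W_special hb hp hp2 hpd, ← N_special hb (hp.odd_of_ne_two hp2),
      Nat.mul_div_cancel _ (by omega)]
  · have h1 := N_special hb hq
    rw [h, mul_assoc, N_special hb hp] at h1
    obtain ⟨k, hk⟩ : ∃ k, q - p = k + 1 := ⟨q - p - 1, by omega⟩
    obtain ⟨m, hm⟩ : ∃ m, q = m + 1 := ⟨q - 1, by omega⟩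
    have h2 : b ∣ b ^ q + 1 := by
      rw [← h1, hk, pow_succ]
      exact ⟨b ^ k * (b ^ p + 1), by ring⟩
    have h3 : b ∣ b ^ q := by
      rw [hm, pow_succ]
      exact dvd_mul_left b _
    have h4 : b ∣ 1 := (Nat.dvd_add_right h3).1 h2
    have h5 := Nat.dvd_one.1 h4
    omega
  · have h : ∀ b : ℕ, ∀ᵐ β : ℝ, 2 ≤ b → 0 < β → ∀ ε : ℝ, 0 < ε →
      ∃ P : ℕ, ∀ p q : ℕ, P ≤ p → p < q → Exponent b β p → Exponent b β q →
      (p : ℝ) / Real.log p ^ (1 + ε) ≤ q - p ∨
        (N b β q = b ^ (q - p) * N b β p ∧ W b β q = W b β p ∧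
          (b : ℝ) ^ (q - p) ≤ Real.log p ^ (1 + ε)) := by
      intro b
      by_cases hb : 2 ≤ b
      swap
      · exact Eventually.of_forall fun β h => absurd h hb
      have hb1 : (1 : ℝ) < b := by exact_mod_cast (by omega : 1 < b)
      filter_upwards [Pool.Agent.V60.Gap.spaced_floor hb zero_le_one hb1 hg] with β h _ hβ ε hε
      obtain ⟨P, hP⟩ := h hβ ε hε
      refine ⟨P + b, fun p q hp hpq hep heq => ?_⟩
      rcases le_or_gt ((p : ℝ) / Real.log p ^ (1 + ε)) (q - p) with h1 | h1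
      · exact Or.inl h1
      right
      have e : ∀ m : ℕ, (fun p : ℕ => ⌊β * (b : ℝ) ^ p + (fun _ : ℕ => (1 : ℝ)) p⌋₊) m = N b β m := by
        intro m
        exact floor_succ (by positivity)
      have h2 := hP p q (by omega) hep.1 heq.1 hpq h1 (by rw [e]; exact hep.2) (by rw [e]; exact heq.2)
      rw [e, e] at h2
      exact ⟨h2.1, Pool.Agent.V60.Gap.same_prime (b := b) (by omega) (by omega) hpq.le h2.1 hep.2
        heq.2, h2.2⟩
    filter_upwards [ae_all_iff.2 h] with β hβ h0 b hb ε hε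
    exact hβ b hb h0 ε hε
  · have h : ∀ b : ℕ, ∀ᵐ β : ℝ, 2 ≤ b → 0 < β →
        {z | z ∈ D ∧ Exponent b β z.1 ∧ Exponent b β z.2 ∧ W b β z.1 ≠ W b β z.2}.Finite := by
      intro b
      by_cases hb : 2 ≤ b
      swap
      · exact Eventually.of_forall fun β h => absurd h hb
      have hb1 : (1 : ℝ) < b := by exact_mod_cast (by omega : 1 < b)
      filter_upwards [Pool.Agent.V60.Gap.set_floor hb zero_le_one hb1 hg D hD hs] with β h _ hβ
      have h1 := h hβ
      have e : ∀ m : ℕ, ⌊β * (b : ℝ) ^ m + 1⌋₊ = N b β m := fun m => floor_succ (by positivity)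
      simp only [e] at h1
      refine (h1.union (Pool.Agent.V60.Gap.finite_small D hD b)).subset ?_
      rintro z ⟨hz, h2, h3, h4⟩
      rcases lt_or_ge z.1 b with h5 | h5
      · exact Or.inr ⟨hz, h5⟩
      · refine Or.inl ⟨hz, h2.2, h3.2, fun h6 => h4 ?_⟩
        have h7 := (hD z hz).1
        exact (Pool.Agent.V60.Gap.same_prime (b := b) (by omega) (by omega) h7.le h6 h2.2 h3.2).symm
    filter_upwards [ae_all_iff.2 h] with β hβ h0 b hb
    exact hβ b hb h0

end Pool.Agent.Results.MP_ce8d0c_nt.SmallGaps
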